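import Pool.Agent.K7.H83.RT.Step4

/-!
# Project RT, job CORE: the iteration
-/

set_option autoImplicit false

namespace Pool.Agent.K7.H83.RT

open Finset

/-- a structure with ratio at least `r` -/
def Q (r : ℝ) : Prop := ∃ V T a : ℕ, Str V T a ∧ V ≤ 2 * T ∧ 1 ≤ T ∧ 1 ≤ a ∧ r * T ≤ V

theorem Q_of_nonpos {r : ℝ} (hr : r ≤ 0) : Q r := by
  refine ⟨0, 1, 1, base, by omega, le_rfl, le_rfl, ?_⟩
  push_cast
  linarith

theorem Q_step {r r' : ℝ} (h : Q r) (hr : r' < 1 + r / 2) : Q r' := by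
  obtain ⟨V, T, a, hS, hVT, hT, ha, hrT⟩ := h
  have hTr : (1 : ℝ) ≤ T := by exact_mod_cast hT
  have hδ : 0 < (2 + r - 2 * r') := by linarith
  obtain ⟨m0, hm0⟩ := exists_nat_ge (((2 * V + 2) * r' - 2 * V - 1) / (2 + r - 2 * r'))
  rw [div_le_iff₀ hδ] at hm0
  obtain ⟨n, a', hn, ha', hS'⟩ := step hS hVT ha (m0 + 1) (by omega)
  refine ⟨_, _, _, hS', ?_, ?_, ha', ?_⟩
  · have h1 : (m0 + 1) * V ≤ (m0 + 1) * (2 * T) := Nat.mul_le_mul_left _ hVT
    calc n * (2 * (m0 + 1) * T + (m0 + 1) * V + 2 * V + 1)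
        ≤ n * (2 * (2 * (m0 + 1) * T + 2 * V + 2)) := by
          apply Nat.mul_le_mul_left
          nlinarith
      _ = _ := by ring
  · exact Nat.mul_pos hn (by omega)
  · push_cast
    have hn' : (0 : ℝ) ≤ n := Nat.cast_nonneg _
    have hm' : (0 : ℝ) ≤ m0 := Nat.cast_nonneg _
    have h1 : (2 + r - 2 * r') * 1 ≤ (2 + r - 2 * r') * T :=
      mul_le_mul_of_nonneg_left hTr hδ.le
    have h2 : (2 + r - 2 * r') ≤ 2 * T + V - 2 * r' * T := by nlinarith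
    have h3 : (m0 + 1 : ℝ) * (2 + r - 2 * r') ≤ (m0 + 1) * (2 * T + V - 2 * r' * T) :=
      mul_le_mul_of_nonneg_left h2 (by linarith)
    have h4 : r' * (2 * (m0 + 1) * T + 2 * V + 2) ≤ 2 * (m0 + 1) * T + (m0 + 1) * V + 2 * V + 1 := by
      nlinarith
    calc r' * (n * (2 * (m0 + 1) * T + 2 * V + 2))
        = n * (r' * (2 * (m0 + 1) * T + 2 * V + 2)) := by ring
      _ ≤ n * (2 * (m0 + 1) * T + (m0 + 1) * V + 2 * V + 1) :=
          mul_le_mul_of_nonneg_left h4 hn'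

theorem Q_pow (k : ℕ) : ∀ r : ℝ, r < 2 - 2 * (1 / 2) ^ k → Q r := by
  induction k with
  | zero =>
    intro r hr
    apply Q_of_nonpos
    norm_num at hr
    exact hr.le
  | succ k ih =>
    intro r hr
    rw [pow_succ] at hr
    refine Q_step (r := ((2 * r - 2) + (2 - 2 * (1 / 2) ^ k)) / 2) (ih _ ?_) ?_
    · linarith
    · linarith

theorem Q_all {r : ℝ} (hr : r < 2) : Q r := by
  obtain ⟨k, hk⟩ := exists_pow_lt_of_lt_one (show (0 : ℝ) < (2 - r) / 2 by linarith)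
    (show (1 / 2 : ℝ) < 1 by norm_num)
  exact Q_pow k r (by linarith)

theorem stCore : StCore := by
  intro r hr
  obtain ⟨V, T, a, ⟨ι, hι, _, C, hC⟩, -, hT, -, hrT⟩ := Q_all (max_lt hr (by norm_num : (1 : ℝ) < 2))
  have hTr : (1 : ℝ) ≤ T := by exact_mod_cast hT
  have h1 : (1 : ℝ) * T ≤ max r 1 * T := mul_le_mul_of_nonneg_right (le_max_right _ _) (by linarith)
  have h2 : r * T ≤ max r 1 * T := mul_le_mul_of_nonneg_right (le_max_left _ _) (by linarith)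
  refine ⟨V, T, C, hT, ?_, h2.trans hrT, ι, hι, fun B hB => ?_⟩
  · have : (1 : ℝ) ≤ V := by linarith
    exact_mod_cast this
  · obtain ⟨A, D, P, hA, -, hP, hAD, -, -, hpos⟩ := hC B hB
    refine ⟨A, P, hA, hP, fun x hx y hy => ?_⟩
    have := hpos _ (hAD x hx y hy) (fun _ => 0) (by simp)
    simpa using this

end Pool.Agent.K7.H83.RT
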