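import Pool.Agent.K7.H83.RT.Stm

/-!
# Project RT, job CORE: the recursive construction
-/

set_option autoImplicit false

namespace Pool.Agent.K7.H83.RT

open Finset

/-- a sign -/
def sg (b : Bool) : ℤ := cond b 1 (-1)

theorem abs_sg_mul (b : Bool) (v : ℤ) : |sg b * v| = |v| := by
  cases b <;> simp [sg]

/-- structures: sets `A` of `B ^ V` vectors with sum-zero differences in `D`, whose positive parts,
also after perturbations by at most `B`, lie in a set of `C B ^ T` vectors -/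
def Str (V T a : ℕ) : Prop := ∃ (ι : Type) (_ : Fintype ι) (_ : Nonempty ι) (C : ℕ),
  ∀ B : ℕ, 2 ≤ B → ∃ A D P : Finset (ι → ℤ),
    B ^ V ≤ A.card ∧ D.card ≤ C * B ^ V ∧ P.card ≤ C * B ^ T ∧
    (∀ x ∈ A, ∀ y ∈ A, (fun i => y i - x i) ∈ D) ∧
    (∀ z ∈ D, ∑ i, z i = 0) ∧ (∀ z ∈ D, ∀ i, |z i| ≤ ((C * B ^ a : ℕ) : ℤ)) ∧
    (∀ z ∈ D, ∀ p : ι → ℤ, (∀ i, |p i| ≤ (B : ℤ)) → pos (fun i => z i + p i) ∈ P)

theorem base : Str 0 1 1 := by
  classical
  refine ⟨Unit, inferInstance, inferInstance, 2, fun B hB => ⟨{0}, {0},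
    (Finset.Icc (0 : ℤ) B).image (fun t _ => t), ?_, ?_, ?_, ?_, ?_, ?_, ?_⟩⟩
  · simp
  · simp
  · refine Finset.card_image_le.trans ?_
    simp
    omega
  · intro x hx y hy
    rw [Finset.mem_singleton] at hx hy ⊢
    subst hx hy
    funext i
    simp
  · intro z hz
    rw [Finset.mem_singleton] at hz
    subst hz
    simp
  · intro z hz i
    rw [Finset.mem_singleton] at hz
    subst hz
    simp
  · intro z hz p hp
    rw [Finset.mem_singleton] at hz
    subst hz
    rw [Finset.mem_image]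
    refine ⟨max (p ()) 0, ?_, ?_⟩
    · rw [Finset.mem_Icc]
      have := abs_le.1 (hp ())
      constructor
      · exact le_max_right _ _
      · exact max_le this.2 (by positivity)
    · funext i
      simp [pos]

section
variable {ι : Type} [Fintype ι]

/-- the box -/
noncomputable def box (ι : Type) [Fintype ι] [DecidableEq ι] (B : ℕ) : Finset (ι → ℤ) :=
  Fintype.piFinset (fun _ => Finset.Icc (-(B : ℤ)) B)

theorem mem_box [DecidableEq ι] {B : ℕ} {p : ι → ℤ} (hp : ∀ i, |p i| ≤ (B : ℤ)) : p ∈ box ι B := by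
  unfold box
  rw [Fintype.mem_piFinset]
  intro i
  rw [Finset.mem_Icc]
  exact abs_le.1 (hp i)

theorem card_box [DecidableEq ι] {B : ℕ} (hB : 1 ≤ B) :
    (box ι B).card ≤ 3 ^ Fintype.card ι * B ^ Fintype.card ι := by
  unfold box
  rw [Fintype.card_piFinset]
  simp only [Int.card_Icc, Finset.prod_const, Finset.card_univ]
  rw [← mul_pow]
  apply Nat.pow_le_pow_left
  omega

end

end Pool.Agent.K7.H83.RT
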