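import Pool.Agent.K7.H83.RT.Step

/-!
# Project RT, job CORE: the product sets
-/

set_option autoImplicit false

namespace Pool.Agent.K7.H83.RT

open Finset

/-- pairs of cells -/
abbrev Pr (m : ℕ) (N : ℕ → ℕ) : Type := Σ g : Fin m, Fin (N g)

/-- cells -/
abbrev Cell (m : ℕ) (N : ℕ → ℕ) : Type := Pr m N × Bool

theorem sum_pr (m : ℕ) (N f : ℕ → ℕ) :
    ∑ j : Pr m N, f (j.1 : ℕ) = ∑ g ∈ range m, N g * f g := by
  rw [Fintype.sum_sigma, Finset.sum_range]
  simp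

theorem prod_le' {κ : Type} [Fintype κ] (q x : κ → ℕ) (K B : ℕ) (h : ∀ c, q c ≤ K * B ^ x c) :
    ∏ c, q c ≤ K ^ Fintype.card κ * B ^ (∑ c, x c) := by
  calc ∏ c, q c ≤ ∏ c, K * B ^ x c := Finset.prod_le_prod' fun c _ => h c
    _ = K ^ Fintype.card κ * B ^ (∑ c, x c) := by
      rw [Finset.prod_mul_distrib, Finset.prod_const, Finset.prod_pow_eq_pow_sum]
      simp

section
variable {ι : Type} [Fintype ι] [DecidableEq ι] {m : ℕ} {N : ℕ → ℕ}

/-- a vector from the vectors of the cells and a number -/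
def asm (q : (Cell m N → ι → ℤ) × ℤ) : Cell m N × ι → ℤ :=
  fun i => q.1 i.1 i.2 + sg i.1.2 * q.2

open Classical in
/-- the new set `A` -/
noncomputable def bigA (m : ℕ) (N : ℕ → ℕ) (A : ℕ → Finset (ι → ℤ)) (L : ℕ) :
    Finset (Cell m N × ι → ℤ) :=
  ((Fintype.piFinset (fun c : Cell m N => A c.1.1)) ×ˢ (range L).image (fun u : ℕ => (u : ℤ))).image
    asm

open Classical in
/-- the new set `D` -/
noncomputable def bigD (m : ℕ) (N : ℕ → ℕ) (D : ℕ → Finset (ι → ℤ)) (L : ℕ) :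
    Finset (Cell m N × ι → ℤ) :=
  ((Fintype.piFinset (fun c : Cell m N => D c.1.1)) ×ˢ Finset.Icc (-(L : ℤ)) L).image asm

theorem card_bigA [Nonempty ι] {A D : ℕ → Finset (ι → ℤ)} {L : ℕ} (hN : 0 < m ∧ 0 < N 0)
    (hAD : ∀ g, ∀ x ∈ A g, ∀ y ∈ A g, (fun i => y i - x i) ∈ D g)
    (hsum : ∀ g, ∀ z ∈ D g, ∑ i, z i = 0) :
    (bigA m N A L).card = (∏ c : Cell m N, (A c.1.1).card) * L := by
  classical
  unfold bigA
  rw [Finset.card_image_of_injOn, Finset.card_product, Fintype.card_piFinset,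
    Finset.card_image_of_injective _ Nat.cast_injective, Finset.card_range]
  rintro ⟨f, u⟩ hq ⟨f', u'⟩ hq' hqq
  simp only [Finset.coe_product, Set.mem_prod, Finset.mem_coe, Fintype.mem_piFinset] at hq hq'
  have key : ∀ c : Cell m N, ∀ i : ι, f c i + sg c.2 * u = f' c i + sg c.2 * u' := fun c i =>
    congrFun hqq (c, i)
  have hu : u = u' := by
    let c0 : Cell m N := (⟨⟨0, hN.1⟩, ⟨0, hN.2⟩⟩, true)
    have h1 := hsum _ _ (hAD _ _ (hq.1 c0) _ (hq'.1 c0))
    have h2 : ∀ i : ι, f' c0 i - f c0 i = u - u' := by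
      intro i
      have := key c0 i
      simp only [c0, sg, cond_true, one_mul] at this ⊢
      linarith
    rw [Finset.sum_congr rfl (fun i _ => h2 i)] at h1
    simp only [Finset.sum_const, Finset.card_univ, nsmul_eq_mul] at h1
    have h3 : (Fintype.card ι : ℤ) ≠ 0 := by
      exact_mod_cast Fintype.card_ne_zero
    rcases mul_eq_zero.1 h1 with h4 | h4
    · exact absurd h4 h3
    · linarith
  subst hu
  refine Prod.ext ?_ rfl
  funext c i
  have := key c i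
  linarith

theorem card_bigD {D : ℕ → Finset (ι → ℤ)} {L : ℕ} :
    (bigD m N D L).card ≤ (∏ c : Cell m N, (D c.1.1).card) * (2 * L + 1) := by
  classical
  unfold bigD
  refine Finset.card_image_le.trans ?_
  rw [Finset.card_product, Fintype.card_piFinset]
  apply Nat.mul_le_mul_left
  simp
  omega

theorem bigA_sub {A D : ℕ → Finset (ι → ℤ)} {L : ℕ}
    (hAD : ∀ g, ∀ x ∈ A g, ∀ y ∈ A g, (fun i => y i - x i) ∈ D g) :
    ∀ x ∈ bigA m N A L, ∀ y ∈ bigA m N A L, (fun i => y i - x i) ∈ bigD m N D L := by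
  classical
  intro x hx y hy
  unfold bigA at hx hy
  unfold bigD
  rw [Finset.mem_image] at hx hy ⊢
  obtain ⟨⟨f, u⟩, hf, rfl⟩ := hx
  obtain ⟨⟨f', u'⟩, hf', rfl⟩ := hy
  rw [Finset.mem_product, Fintype.mem_piFinset, Finset.mem_image] at hf hf'
  obtain ⟨hf1, s, hs, hs2⟩ := hf
  obtain ⟨hf1', s', hs', hs2'⟩ := hf'
  rw [Finset.mem_range] at hs hs'
  simp only at hs2 hs2' hf1 hf1'
  subst hs2 hs2'
  refine ⟨(fun c i => f' c i - f c i, (s' : ℤ) - s), ?_, ?_⟩
  · rw [Finset.mem_product, Fintype.mem_piFinset, Finset.mem_Icc]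
    refine ⟨fun c => hAD _ _ (hf1 c) _ (hf1' c), ?_, ?_⟩
    · simp only
      omega
    · simp only
      omega
  · funext i
    simp only [asm]
    ring

theorem bigD_sum {D : ℕ → Finset (ι → ℤ)} {L : ℕ} (hsum : ∀ g, ∀ z ∈ D g, ∑ i, z i = 0) :
    ∀ z ∈ bigD m N D L, ∑ i, z i = 0 := by
  classical
  intro z hz
  unfold bigD at hz
  rw [Finset.mem_image] at hz
  obtain ⟨⟨f, v⟩, hf, rfl⟩ := hz
  rw [Finset.mem_product, Fintype.mem_piFinset] at hf
  rw [Fintype.sum_prod_type]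
  have h1 : ∀ c : Cell m N, ∑ i : ι, asm (f, v) (c, i) = sg c.2 * v * Fintype.card ι := by
    intro c
    simp only [asm]
    rw [Finset.sum_add_distrib, hsum _ _ (hf.1 c)]
    simp
    ring
  rw [Finset.sum_congr rfl (fun c _ => h1 c), Fintype.sum_prod_type]
  apply Finset.sum_eq_zero
  intro j _
  rw [Fintype.sum_bool]
  simp only [sg, cond_true, cond_false]
  ring

theorem bigD_abs {D : ℕ → Finset (ι → ℤ)} {L : ℕ} {R : ℕ}
    (hR : ∀ g < m, ∀ z ∈ D g, ∀ i, |z i| ≤ (R : ℤ)) :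
    ∀ z ∈ bigD m N D L, ∀ i, |z i| ≤ ((R + L : ℕ) : ℤ) := by
  classical
  intro z hz i
  unfold bigD at hz
  rw [Finset.mem_image] at hz
  obtain ⟨⟨f, v⟩, hf, rfl⟩ := hz
  rw [Finset.mem_product, Fintype.mem_piFinset, Finset.mem_Icc] at hf
  simp only [asm]
  have h1 := hR _ i.1.1.1.2 _ (hf.1 i.1) i.2
  have h2 : |sg i.1.2 * v| ≤ L := by
    rw [abs_sg_mul]
    exact abs_le.2 hf.2
  push_cast
  exact (abs_add_le _ _).trans (add_le_add h1 h2)

end

end Pool.Agent.K7.H83.RT
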