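import Pool.Agent.K7.H83.RT.Step2

/-!
# Project RT, job CORE: the positive parts
-/

set_option autoImplicit false

namespace Pool.Agent.K7.H83.RT

open Finset

section
variable {ι : Type} [Fintype ι] [DecidableEq ι] {m : ℕ} {N : ℕ → ℕ}

open Classical in
/-- the possible positive parts in the cell `c`, at the stage `s`, for the number `v` -/
noncomputable def cellQ (D P : ℕ → Finset (ι → ℤ)) (B s : ℕ) (v : ℤ) (c : Cell m N) :
    Finset (ι → ℤ) :=
  if (c.1.1 : ℕ) < s ∧ sg c.2 * v ≤ 0 then {0}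
  else if (c.1.1 : ℕ) ≤ s then
    ((D c.1.1) ×ˢ box ι B).image (fun q => pos (fun i => q.1 i + sg c.2 * v + q.2 i))
  else P c.1.1

open Classical in
/-- the new set `P` -/
noncomputable def bigP (m : ℕ) (N : ℕ → ℕ) (D P : ℕ → Finset (ι → ℤ)) (B : ℕ) (w : ℕ → ℕ) :
    Finset (Cell m N × ι → ℤ) :=
  (range (m + 1)).biUnion (fun s => (Finset.Icc (-(w s : ℤ)) (w s)).biUnion (fun v =>
    (Fintype.piFinset (fun c : Cell m N => cellQ D P B s v c)).image (fun f i => f i.1 i.2)))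

/-- exponents of the cells -/
def xx (e : ℕ → ℕ) (V T I s : ℕ) (v : ℤ) (c : Cell m N) : ℕ :=
  if (c.1.1 : ℕ) < s ∧ sg c.2 * v ≤ 0 then 0
  else if (c.1.1 : ℕ) ≤ s then V * e c.1.1 + I else T * e c.1.1

/-- exponents of the pairs -/
def yy (e : ℕ → ℕ) (V T I s g : ℕ) : ℕ :=
  if g < s then V * e g + I else if g = s then 2 * (V * e g + I) else 2 * (T * e g)

theorem sum_x (e : ℕ → ℕ) (V T I s : ℕ) (v : ℤ) (hv : v ≠ 0 ∨ True) :
    ∑ c : Cell m N, xx e V T I s v c ≤ ∑ g ∈ range m, N g * yy e V T I s g := by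
  rw [← sum_pr m N (yy e V T I s), Fintype.sum_prod_type]
  apply Finset.sum_le_sum
  intro j _
  rw [Fintype.sum_bool]
  simp only [xx, yy, sg, cond_true, cond_false]
  generalize V * e (j.1 : ℕ) = X
  generalize T * e (j.1 : ℕ) = Y
  split_ifs <;> omega

theorem card_cellQ {D P : ℕ → Finset (ι → ℤ)} {B C V T : ℕ} {e : ℕ → ℕ} (hB : 1 ≤ B)
    (hD : ∀ g, (D g).card ≤ C * B ^ (V * e g)) (hP : ∀ g, (P g).card ≤ C * B ^ (T * e g))
    (s : ℕ) (v : ℤ) (c : Cell m N) :
    (cellQ D P B s v c).card ≤ ((C + 1) * 3 ^ Fintype.card ι) *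
      B ^ (xx e V T (Fintype.card ι) s v c) := by
  classical
  have h3 : 1 ≤ 3 ^ Fintype.card ι := Nat.one_le_pow _ _ (by norm_num)
  unfold cellQ xx
  split_ifs with h1 h2
  · rw [Finset.card_singleton, pow_zero, mul_one]
    nlinarith
  · refine Finset.card_image_le.trans ?_
    rw [Finset.card_product]
    calc (D c.1.1).card * (box ι B).card
        ≤ (C * B ^ (V * e c.1.1)) * (3 ^ Fintype.card ι * B ^ Fintype.card ι) :=
          Nat.mul_le_mul (hD _) (card_box hB)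
      _ = (C * 3 ^ Fintype.card ι) * B ^ (V * e c.1.1 + Fintype.card ι) := by
          rw [pow_add]; ring
      _ ≤ _ := by
          apply Nat.mul_le_mul_right
          apply Nat.mul_le_mul_right
          omega
  · refine (hP _).trans ?_
    apply Nat.mul_le_mul_right
    nlinarith

theorem card_bigP {D P : ℕ → Finset (ι → ℤ)} {B C V T K' Z : ℕ} {e w : ℕ → ℕ} (hB : 1 ≤ B)
    (hD : ∀ g, (D g).card ≤ C * B ^ (V * e g)) (hP : ∀ g, (P g).card ≤ C * B ^ (T * e g))
    (hZ : ∀ s ≤ m, (2 * w s + 1) * B ^ (∑ g ∈ range m, N g * yy e V T (Fintype.card ι) s g) ≤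
      K' * B ^ Z) :
    (bigP m N D P B w).card ≤ ((m + 1) * (((C + 1) * 3 ^ Fintype.card ι) ^
      Fintype.card (Cell m N) * K')) * B ^ Z := by
  classical
  unfold bigP
  refine Finset.card_biUnion_le.trans ?_
  rw [mul_assoc, ← Finset.card_range (m + 1), ← smul_eq_mul, ← Finset.sum_const]
  simp only [Finset.card_range]
  apply Finset.sum_le_sum
  intro s hs
  have hs' : s ≤ m := by
    rw [Finset.mem_range] at hs
    omega
  refine Finset.card_biUnion_le.trans ?_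
  have h1 : ∀ v ∈ Finset.Icc (-(w s : ℤ)) (w s),
      ((Fintype.piFinset (fun c : Cell m N => cellQ D P B s v c)).image
        (fun (f : Cell m N → ι → ℤ) (i : Cell m N × ι) => f i.1 i.2)).card ≤
      ((C + 1) * 3 ^ Fintype.card ι) ^ Fintype.card (Cell m N) *
        B ^ (∑ g ∈ range m, N g * yy e V T (Fintype.card ι) s g) := by
    intro v _
    refine Finset.card_image_le.trans ?_
    rw [Fintype.card_piFinset]
    refine (prod_le' _ _ _ B (card_cellQ hB hD hP s v)).trans ?_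
    apply Nat.mul_le_mul_left
    exact Nat.pow_le_pow_right hB (sum_x e V T _ s v (Or.inr trivial))
  refine (Finset.sum_le_sum h1).trans ?_
  rw [Finset.sum_const, Int.card_Icc, smul_eq_mul]
  have h2 : ((w s : ℤ) + 1 - -(w s : ℤ)).toNat = 2 * w s + 1 := by omega
  rw [h2]
  calc (2 * w s + 1) * (((C + 1) * 3 ^ Fintype.card ι) ^ Fintype.card (Cell m N) *
        B ^ (∑ g ∈ range m, N g * yy e V T (Fintype.card ι) s g))
      = ((C + 1) * 3 ^ Fintype.card ι) ^ Fintype.card (Cell m N) * ((2 * w s + 1) *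
        B ^ (∑ g ∈ range m, N g * yy e V T (Fintype.card ι) s g)) := by ring
    _ ≤ ((C + 1) * 3 ^ Fintype.card ι) ^ Fintype.card (Cell m N) * (K' * B ^ Z) :=
        Nat.mul_le_mul_left _ (hZ s hs')
    _ = _ := by ring

theorem mem_bigP {D P : ℕ → Finset (ι → ℤ)} {B L : ℕ} {e w : ℕ → ℕ} {R : ℕ → ℕ}
    (hR : ∀ g < m, ∀ z ∈ D g, ∀ i, |z i| ≤ (R g : ℤ))
    (hw : ∀ g < m, w g = R g + B) (hwm : w m = L)
    (hsep : ∀ s g, s < g → g < m → w s + B ≤ B ^ e g)
    (hpos : ∀ g, ∀ z ∈ D g, ∀ p : ι → ℤ, (∀ i, |p i| ≤ ((B ^ e g : ℕ) : ℤ)) →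
      pos (fun i => z i + p i) ∈ P g) :
    ∀ z ∈ bigD m N D L, ∀ p : Cell m N × ι → ℤ, (∀ i, |p i| ≤ (B : ℤ)) →
      pos (fun i => z i + p i) ∈ bigP m N D P B w := by
  classical
  intro z hz p hp
  unfold bigD at hz
  rw [Finset.mem_image] at hz
  obtain ⟨⟨f, v⟩, hf, rfl⟩ := hz
  rw [Finset.mem_product, Fintype.mem_piFinset, Finset.mem_Icc] at hf
  obtain ⟨hf1, hv⟩ := hf
  simp only at hf1 hv
  have hvL : |v| ≤ L := abs_le.2 hv
  obtain ⟨s, hsm, hs1, hs2⟩ : ∃ s ≤ m, |v| ≤ (w s : ℤ) ∧ ∀ g < s, (w g : ℤ) < |v| := by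
    by_cases hex : ∃ s ≤ m, |v| ≤ (w s : ℤ)
    · refine ⟨Nat.find hex, (Nat.find_spec hex).1, (Nat.find_spec hex).2, ?_⟩
      intro g hg
      have := Nat.find_min hex hg
      push Not at this
      exact this (hg.le.trans (Nat.find_spec hex).1)
    · exact absurd ⟨m, le_rfl, by rw [hwm]; exact hvL⟩ hex
  unfold bigP
  rw [Finset.mem_biUnion]
  refine ⟨s, by rw [Finset.mem_range]; omega, ?_⟩
  rw [Finset.mem_biUnion]
  refine ⟨v, by rw [Finset.mem_Icc]; exact abs_le.1 hs1, ?_⟩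
  rw [Finset.mem_image]
  refine ⟨fun c => pos (fun i => f c i + sg c.2 * v + p (c, i)), ?_, rfl⟩
  rw [Fintype.mem_piFinset]
  intro c
  have hgm : (c.1.1 : ℕ) < m := c.1.1.2
  unfold cellQ
  split_ifs with h1 h2
  · rw [Finset.mem_singleton]
    funext i
    have h3 : sg c.2 * v = -|v| := by
      rw [← abs_sg_mul c.2 v, abs_of_nonpos h1.2]
      ring
    have h4 := hR _ hgm _ (hf1 c) i
    have h5 := hp (c, i)
    have h6 := hs2 _ h1.1
    rw [hw _ hgm] at h6
    push_cast at h6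
    rw [abs_le] at h4 h5
    simp only [pos, Pi.zero_apply]
    apply max_eq_right
    rw [h3]
    linarith [h4.2, h5.2]
  · rw [Finset.mem_image]
    refine ⟨(f c, fun i => p (c, i)), ?_, rfl⟩
    rw [Finset.mem_product]
    exact ⟨hf1 c, mem_box (fun i => hp (c, i))⟩
  · have h3 : s < (c.1.1 : ℕ) := by omega
    have h4 := hpos _ _ (hf1 c) (fun i => sg c.2 * v + p (c, i)) (by
      intro i
      have h5 : |sg c.2 * v| ≤ w s := by
        rw [abs_sg_mul]; exact hs1
      have h6 := hsep _ _ h3 hgm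
      have h7 : ((w s : ℤ) + B) ≤ ((B ^ e c.1.1 : ℕ) : ℤ) := by exact_mod_cast h6
      exact ((abs_add_le _ _).trans (add_le_add h5 (hp (c, i)))).trans h7)
    have h5 : (fun i => f c i + (sg c.2 * v + p (c, i))) =
        (fun i => f c i + sg c.2 * v + p (c, i)) := by
      funext i
      ring
    rw [h5] at h4
    exact h4

end

end Pool.Agent.K7.H83.RT
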