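import Pool.Agent.K7.H83.RT.Step3

/-!
# Project RT, job CORE: the step
-/

set_option autoImplicit false

namespace Pool.Agent.K7.H83.RT

open Finset

theorem sum_cell (m : ℕ) (N f : ℕ → ℕ) :
    ∑ c : Cell m N, f (c.1.1 : ℕ) = ∑ g ∈ range m, N g * (2 * f g) := by
  rw [← sum_pr m N (fun g => 2 * f g), Fintype.sum_prod_type]
  apply Finset.sum_congr rfl
  intro j _
  rw [Fintype.sum_bool]
  ring

theorem step {V T a : ℕ} (h : Str V T a) (hVT : V ≤ 2 * T) (ha : 1 ≤ a) (m : ℕ) (hm : 1 ≤ m) :
    ∃ n a', 1 ≤ n ∧ 1 ≤ a' ∧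
      Str (n * (2 * m * T + m * V + 2 * V + 1)) (n * (2 * m * T + 2 * V + 2)) a' := by
  classical
  obtain ⟨ι, _, _, C, hC⟩ := h
  obtain ⟨I, hI⟩ : ∃ I, I = Fintype.card ι := ⟨_, rfl⟩
  obtain ⟨E, hEd⟩ : ∃ E, E = a + C + 2 + 2 * m * I := ⟨_, rfl⟩
  have hE : 2 ≤ E := by omega
  have hE0 : 0 < E := by omega
  obtain ⟨n, hn⟩ : ∃ n, n = a * E ^ m := ⟨_, rfl⟩
  set e : ℕ → ℕ := fun g => E ^ (g + 1) with he
  set N : ℕ → ℕ := fun g => a * E ^ (m - 1 - g) with hN
  have hNe : ∀ g, g < m → N g * e g = n := by
    intro g hg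
    simp only [hN, he]
    rw [mul_assoc, ← pow_add, show m - 1 - g + (g + 1) = m by omega, hn]
  have hepos : ∀ g, 1 ≤ e g := fun g => Nat.one_le_pow _ _ hE0
  have hEm : 1 ≤ E ^ m := Nat.one_le_pow _ _ hE0
  have hn1 : 1 ≤ n := by rw [hn]; exact Nat.mul_pos ha hEm
  have hmV : m * V ≤ 2 * m * T := by
    calc m * V ≤ m * (2 * T) := Nat.mul_le_mul_left _ hVT
      _ = 2 * m * T := by ring
  obtain ⟨β, hβ⟩ : ∃ β, 2 * m * T + 2 * V + 1 = β + m * V :=
    ⟨2 * m * T + 2 * V + 1 - m * V, by omega⟩
  obtain ⟨α, hα⟩ : ∃ α, α = n * β := ⟨_, rfl⟩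
  have hN0 : 0 < N 0 := by
    simp only [hN]
    exact Nat.mul_pos ha (Nat.pow_pos hE0)
  haveI : Nonempty (Cell m N × ι) := by
    obtain ⟨i⟩ := (inferInstance : Nonempty ι)
    exact ⟨((⟨⟨0, hm⟩, ⟨0, hN0⟩⟩, true), i)⟩
  -- sum of the N g
  obtain ⟨SN, hSN⟩ : ∃ SN, SN = ∑ g ∈ range m, N g := ⟨_, rfl⟩
  have hSN1 : 2 * I * SN ≤ n := by
    have h1 : SN * E ≤ m * n := by
      rw [hSN, Finset.sum_mul]
      calc ∑ g ∈ range m, N g * E ≤ ∑ g ∈ range m, n := by
            apply Finset.sum_le_sum
            intro g hg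
            rw [Finset.mem_range] at hg
            rw [← hNe g hg]
            apply Nat.mul_le_mul_left
            simp only [he]
            calc E = E ^ 1 := (pow_one E).symm
              _ ≤ E ^ (g + 1) := Nat.pow_le_pow_right hE0 (by omega)
        _ = m * n := by simp
    have h2 : m * (2 * I * SN) ≤ m * n := by
      calc m * (2 * I * SN) = SN * (2 * m * I) := by ring
        _ ≤ SN * E := Nat.mul_le_mul_left _ (by omega)
        _ ≤ m * n := h1
    exact Nat.le_of_mul_le_mul_left h2 hm
  set Z := n * (2 * m * T + 2 * V + 2) with hZdef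
  have hZ1 : Z = α + m * (n * V) + n := by
    rw [hZdef, hα, show 2 * m * T + 2 * V + 2 = (2 * m * T + 2 * V + 1) + 1 by ring, hβ]
    ring
  have hVs : n * (2 * m * T + m * V + 2 * V + 1) = m * (2 * (n * V)) + α := by
    rw [hα, show 2 * m * T + m * V + 2 * V + 1 = (2 * m * T + 2 * V + 1) + m * V by ring, hβ]
    ring
  refine ⟨n, α + E ^ m * a, hn1, ?_, Cell m N × ι, inferInstance, inferInstance,
    3 * C ^ Fintype.card (Cell m N) + ((m + 1) * (((C + 1) * 3 ^ Fintype.card ι) ^
      Fintype.card (Cell m N) * (2 * C + 3))) + (C + 1), fun B hB => ?_⟩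
  · have : 1 ≤ E ^ m * a := Nat.mul_pos hEm ha
    omega
  have hB0 : 0 < B := by omega
  have hBg : ∀ g, 2 ≤ B ^ e g := fun g =>
    hB.trans (Nat.le_self_pow (by have := hepos g; omega) B)
  choose A D P hA hDc hPc hAD hsum hbd hpos using fun g : ℕ => hC (B ^ e g) (hBg g)
  have hDc' : ∀ g, (D g).card ≤ C * B ^ (V * e g) := by
    intro g
    have := hDc g
    rwa [← pow_mul, mul_comm (e g)] at this
  have hPc' : ∀ g, (P g).card ≤ C * B ^ (T * e g) := by
    intro g
    have := hPc g
    rwa [← pow_mul, mul_comm (e g)] at this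
  have hA' : ∀ g, B ^ (V * e g) ≤ (A g).card := by
    intro g
    have := hA g
    rwa [← pow_mul, mul_comm (e g)] at this
  have hsumcell : ∑ c : Cell m N, V * e c.1.1 = m * (2 * (n * V)) := by
    rw [sum_cell m N (fun g => V * e g)]
    calc ∑ g ∈ range m, N g * (2 * (V * e g)) = ∑ g ∈ range m, 2 * (n * V) := by
          apply Finset.sum_congr rfl
          intro g hg
          rw [Finset.mem_range] at hg
          rw [← hNe g hg]
          ring
      _ = m * (2 * (n * V)) := by simp
  set w : ℕ → ℕ := fun s => if s < m then C * (B ^ e s) ^ a + B else B ^ α with hw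
  have hBx : ∀ s, B ≤ (B ^ e s) ^ a := by
    intro s
    rw [← pow_mul]
    exact Nat.le_self_pow (by have := Nat.mul_pos (hepos s) ha; omega) B
  refine ⟨bigA m N A (B ^ α), bigD m N D (B ^ α), bigP m N D P B w, ?_, ?_, ?_,
    bigA_sub hAD, bigD_sum hsum, ?_, ?_⟩
  · rw [card_bigA ⟨hm, hN0⟩ hAD hsum, hVs, pow_add]
    apply Nat.mul_le_mul_right
    rw [← hsumcell, ← Finset.prod_pow_eq_pow_sum]
    exact Finset.prod_le_prod' fun c _ => hA' _
  · refine card_bigD.trans ?_
    have h1 : ∏ c : Cell m N, (D c.1.1).card ≤ C ^ Fintype.card (Cell m N) *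
        B ^ (∑ c : Cell m N, V * e c.1.1) := prod_le' _ _ C B (fun c => hDc' _)
    have h2 : 2 * B ^ α + 1 ≤ 3 * B ^ α := by
      have : 1 ≤ B ^ α := Nat.one_le_pow _ _ hB0
      omega
    calc (∏ c : Cell m N, (D c.1.1).card) * (2 * B ^ α + 1)
        ≤ (C ^ Fintype.card (Cell m N) * B ^ (∑ c : Cell m N, V * e c.1.1)) * (3 * B ^ α) :=
          Nat.mul_le_mul h1 h2
      _ = (3 * C ^ Fintype.card (Cell m N)) * B ^ (n * (2 * m * T + m * V + 2 * V + 1)) := by
          rw [hVs, hsumcell, pow_add]
          ring
      _ ≤ _ := by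
          apply Nat.mul_le_mul_right
          omega
  · refine (card_bigP (K' := 2 * C + 3) (Z := Z) hB0 hDc' hPc' ?_).trans ?_
    · intro s hs
      rcases Nat.lt_or_ge s m with hsm | hsm
      · have h1 : 2 * w s + 1 ≤ (2 * C + 3) * B ^ (e s * a) := by
          simp only [hw, if_pos hsm]
          have h2 := hBx s
          rw [pow_mul]
          nlinarith
        have h3 : ∑ g ∈ range m, N g * yy e V T (Fintype.card ι) s g ≤
            m * (2 * (n * T)) + 2 * I * SN + 2 * (n * V) := by
          calc ∑ g ∈ range m, N g * yy e V T (Fintype.card ι) s g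
              ≤ ∑ g ∈ range m, (2 * (n * T) + 2 * I * N g + if g = s then 2 * (n * V) else 0) := by
                apply Finset.sum_le_sum
                intro g hg
                rw [Finset.mem_range] at hg
                have h4 := hNe g hg
                have h5 : n * V ≤ 2 * (n * T) := by
                  calc n * V ≤ n * (2 * T) := Nat.mul_le_mul_left _ hVT
                    _ = _ := by ring
                rw [← hI]
                unfold yy
                split_ifs with h6 h7 h8
                · omega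
                · have : N g * (V * e g + I) = n * V + I * N g := by
                    rw [← h4]; ring
                  nlinarith [Nat.zero_le (I * N g)]
                · have : N g * (2 * (V * e g + I)) = 2 * (n * V) + 2 * I * N g := by
                    rw [← h4]; ring
                  omega
                · have : N g * (2 * (T * e g)) = 2 * (n * T) := by
                    rw [← h4]; ring
                  omega
            _ ≤ m * (2 * (n * T)) + 2 * I * SN + 2 * (n * V) := by
                have hI1 : ∑ g ∈ range m, 2 * I * N g = 2 * I * SN := by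
                  rw [hSN, Finset.mul_sum]
                rw [Finset.sum_add_distrib, Finset.sum_add_distrib, hI1,
                  Finset.sum_const, Finset.card_range, smul_eq_mul, Finset.sum_ite_eq']
                split_ifs <;> omega
        have h9 : e s * a ≤ n := by
          rw [hn, mul_comm]
          apply Nat.mul_le_mul_left
          exact Nat.pow_le_pow_right hE0 (by omega)
        have h10 : e s * a + ∑ g ∈ range m, N g * yy e V T (Fintype.card ι) s g ≤ Z := by
          have : Z = m * (2 * (n * T)) + 2 * (n * V) + 2 * n := by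
            rw [hZdef]; ring
          omega
        calc (2 * w s + 1) * B ^ (∑ g ∈ range m, N g * yy e V T (Fintype.card ι) s g)
            ≤ ((2 * C + 3) * B ^ (e s * a)) *
              B ^ (∑ g ∈ range m, N g * yy e V T (Fintype.card ι) s g) :=
              Nat.mul_le_mul_right _ h1
          _ = (2 * C + 3) * B ^ (e s * a +
              ∑ g ∈ range m, N g * yy e V T (Fintype.card ι) s g) := by
              rw [pow_add]; ring
          _ ≤ (2 * C + 3) * B ^ Z := Nat.mul_le_mul_left _ (Nat.pow_le_pow_right hB0 h10)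
      · have hsm' : s = m := le_antisymm hs hsm
        subst hsm'
        have h1 : 2 * w s + 1 ≤ (2 * C + 3) * B ^ α := by
          simp only [hw, lt_irrefl, if_false]
          have : 1 ≤ B ^ α := Nat.one_le_pow _ _ hB0
          nlinarith
        have h3 : ∑ g ∈ range s, N g * yy e V T (Fintype.card ι) s g =
            s * (n * V) + I * SN := by
          calc ∑ g ∈ range s, N g * yy e V T (Fintype.card ι) s g
              = ∑ g ∈ range s, (n * V + I * N g) := by
                apply Finset.sum_congr rfl
                intro g hg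
                rw [Finset.mem_range] at hg
                rw [← hI]
                unfold yy
                rw [if_pos hg, ← hNe g hg]
                ring
            _ = s * (n * V) + I * SN := by
                have hI1 : ∑ g ∈ range s, I * N g = I * SN := by
                  rw [hSN, Finset.mul_sum]
                rw [Finset.sum_add_distrib, hI1, Finset.sum_const,
                  Finset.card_range, smul_eq_mul]
        have h10 : α + ∑ g ∈ range s, N g * yy e V T (Fintype.card ι) s g ≤ Z := by
          rw [h3, hZ1]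
          nlinarith
        calc (2 * w s + 1) * B ^ (∑ g ∈ range s, N g * yy e V T (Fintype.card ι) s g)
            ≤ ((2 * C + 3) * B ^ α) *
              B ^ (∑ g ∈ range s, N g * yy e V T (Fintype.card ι) s g) :=
              Nat.mul_le_mul_right _ h1
          _ = (2 * C + 3) * B ^ (α +
              ∑ g ∈ range s, N g * yy e V T (Fintype.card ι) s g) := by
              rw [pow_add]; ring
          _ ≤ (2 * C + 3) * B ^ Z := Nat.mul_le_mul_left _ (Nat.pow_le_pow_right hB0 h10)
    · apply Nat.mul_le_mul_right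
      omega
  · have h1 : ∀ g < m, ∀ z ∈ D g, ∀ i, |z i| ≤ ((C * B ^ (E ^ m * a) : ℕ) : ℤ) := by
      intro g hg z hz i
      refine (hbd g z hz i).trans ?_
      have : C * (B ^ e g) ^ a ≤ C * B ^ (E ^ m * a) := by
        apply Nat.mul_le_mul_left
        rw [← pow_mul]
        apply Nat.pow_le_pow_right hB0
        apply Nat.mul_le_mul_right
        exact Nat.pow_le_pow_right hE0 (by omega)
      exact_mod_cast this
    intro z hz i
    refine (bigD_abs h1 z hz i).trans ?_
    have h2 : C * B ^ (E ^ m * a) + B ^ α ≤ (C + 1) * B ^ (α + E ^ m * a) := by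
      have h3 : B ^ (E ^ m * a) ≤ B ^ (α + E ^ m * a) := Nat.pow_le_pow_right hB0 (by omega)
      have h4 : B ^ α ≤ B ^ (α + E ^ m * a) := Nat.pow_le_pow_right hB0 (by omega)
      nlinarith
    have h5 : C * B ^ (E ^ m * a) + B ^ α ≤ (3 * C ^ Fintype.card (Cell m N) +
        ((m + 1) * (((C + 1) * 3 ^ Fintype.card ι) ^ Fintype.card (Cell m N) * (2 * C + 3))) +
        (C + 1)) * B ^ (α + E ^ m * a) := by
      refine h2.trans ?_
      apply Nat.mul_le_mul_right
      omega
    exact_mod_cast h5
  · refine mem_bigP (R := fun g => C * (B ^ e g) ^ a) (e := e) ?_ ?_ ?_ ?_ ?_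
    · intro g _ z hz i
      exact hbd g z hz i
    · intro g hg
      simp only [hw, if_pos hg]
    · simp only [hw, lt_irrefl, if_false]
    · intro s g hsg hgm
      simp only [hw, if_pos (hsg.trans hgm)]
      have h1 := hBx s
      have h2 : e s * a + (C + 2) ≤ e g := by
        have h3 : E ^ (s + 2) ≤ E ^ (g + 1) := Nat.pow_le_pow_right hE0 (by omega)
        have h4 : E ^ (s + 2) = e s * E := by
          simp only [he]
          rw [← pow_succ]
        have h5 : e s * (a + (C + 2)) ≤ e s * E := Nat.mul_le_mul_left _ (by omega)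
        have h6 : C + 2 ≤ e s * (C + 2) := Nat.le_mul_of_pos_left _ (hepos s)
        have h7 : e g = E ^ (g + 1) := rfl
        rw [mul_add] at h5
        omega
      have h8 : C + 2 < 2 ^ (C + 2) := Nat.lt_two_pow_self
      have h9 : C + 2 ≤ B ^ (C + 2) := h8.le.trans (Nat.pow_le_pow_left hB _)
      calc C * (B ^ e s) ^ a + B + B ≤ (B ^ e s) ^ a * (C + 2) := by nlinarith
        _ ≤ (B ^ e s) ^ a * B ^ (C + 2) := Nat.mul_le_mul_left _ h9
        _ = B ^ (e s * a + (C + 2)) := by rw [← pow_mul, ← pow_add]
        _ ≤ B ^ e g := Nat.pow_le_pow_right hB0 h2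
    · intro g z hz p hp
      exact hpos g z hz p hp

end Pool.Agent.K7.H83.RT
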