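import Mathlib

/-!
# Distinct ratios a_j / gcd(a_i, a_j) (MP_f9e5d9_nt): definitions and job statements (project RT)

Claim: `lim log h(n) / log n = 1/2` (full answer of Q1).
-/

set_option autoImplicit false

namespace Pool.Agent.K7.H83.RT

open Filter Topology

/-- the set of the quotients `b / gcd(a, b)`, `a, b ∈ S` -/
def ratios (S : Finset ℕ) : Finset ℕ := (S ×ˢ S).image (fun p => p.2 / Nat.gcd p.1 p.2)

/-- `h n`: the least number of distinct quotients over all sets of `n` positive integers -/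
noncomputable def h (n : ℕ) : ℕ :=
  sInf {m : ℕ | ∃ S : Finset ℕ, S.card = n ∧ (∀ a ∈ S, 0 < a) ∧ (ratios S).card = m}

/-- the positive part of an integer vector -/
def pos {ι : Type} (z : ι → ℤ) : ι → ℤ := fun i => max (z i) 0

/-- JOB TR: integer vectors become integers (shift to nonnegative vectors, then products of powers of
distinct primes; `b / gcd(a, b)` is the positive part of the difference of the exponent vectors). -/
def StTR : Prop := ∀ (ι : Type) [Fintype ι] (A P : Finset (ι → ℤ)),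
  (∀ x ∈ A, ∀ y ∈ A, pos (fun i => y i - x i) ∈ P) →
    ∃ S : Finset ℕ, S.card = A.card ∧ (∀ a ∈ S, 0 < a) ∧ (ratios S).card ≤ P.card

/-- JOB CORE (helper83): sets of integer vectors with few positive parts of differences -/
def StCore : Prop := ∀ r : ℝ, r < 2 → ∃ V T C : ℕ, 1 ≤ T ∧ 1 ≤ V ∧ r * T ≤ V ∧
  ∃ (ι : Type) (_ : Fintype ι), ∀ B : ℕ, 2 ≤ B → ∃ A P : Finset (ι → ℤ),
    B ^ V ≤ A.card ∧ P.card ≤ C * B ^ T ∧ ∀ x ∈ A, ∀ y ∈ A, pos (fun i => y i - x i) ∈ P

/-- JOB LIM: the limit.  (Lower bound: `b / a` is the quotient of two elements of `ratios S`, so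
`n ≤ h(n)^2`.  Upper bound: `h` is monotone (subsets); given `r < 2` and `n ≥ 2` take the least `B`
with `n ≤ B ^ V`; then `(B - 1) ^ V < n`, `B ≤ 2 (B - 1)`, so `log B ≤ log 2 + log n / V` and
`log h(n) ≤ log C + T log B ≤ const + (T / V) log n ≤ const + (1 / r) log n`.) -/
def StLim : Prop := StTR → StCore →
  Tendsto (fun n : ℕ => Real.log (h n) / Real.log n) atTop (𝓝 (1 / 2))

end Pool.Agent.K7.H83.RT
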